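import Pool.Agent.Y746.OM.Stm

/-! Project OM (helper746): S_KER (helper555). -/

set_option autoImplicit false

namespace Pool.Agent.Y555.OM.Ker

open MeasureTheory Real Pool.Agent.Y746.OM Set

/-! ### elementary inequalities -/

theorem exp_le {s : ℝ} (h0 : 0 ≤ s) (h1 : s ≤ 1 / 2) : Real.exp s ≤ 1 + 2 * s := by
  have h2 := Real.one_sub_le_exp_neg s
  have h3 : Real.exp s * Real.exp (-s) = 1 := by rw [← Real.exp_add]; simp
  have h4 := Real.exp_pos s
  have h5 : Real.exp s * (1 - s) ≤ 1 :=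
    (mul_le_mul_of_nonneg_left h2 h4.le).trans h3.le
  nlinarith [mul_nonneg h0 (sub_nonneg.mpr h1)]

theorem cosh_le {t : ℝ} (h : |t| ≤ 1) : Real.cosh t ≤ 1 + t ^ 2 := by
  have h1 : t ^ 2 ≤ 1 := by
    rw [← sq_abs]
    nlinarith [abs_nonneg t]
  have h2 := exp_le (s := t ^ 2 / 2) (by positivity) (by linarith)
  have h3 := Real.cosh_le_exp_half_sq t
  linarith

theorem sinh_le {t : ℝ} (h : |t| ≤ 1) : |Real.sinh t| ≤ 2 * |t| := by
  rw [Real.abs_sinh]
  set s := |t| with hs
  have h0 : 0 ≤ s := abs_nonneg t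
  have h1 := exp_le (s := s / 2) (by linarith) (by linarith)
  have h2 : Real.exp s = Real.exp (s / 2) ^ 2 := by
    rw [← Real.exp_nat_mul]
    congr 1
    push_cast
    ring
  have h3 := Real.one_sub_le_exp_neg s
  have h4 := Real.exp_pos (s / 2)
  rw [Real.sinh_eq]
  have h5 : Real.exp s ≤ 1 + 3 * s := by
    rw [h2]
    nlinarith
  linarith

/-- the main elementary estimate -/
theorem elem {x y u B : ℝ} (hB : 1 ≤ B) (hu0 : 0 ≤ u) (huB : u ≤ B) (hy : |y| * B ≤ 1) :
    |Real.exp (y ^ 2 / 2) * (Real.cos (x * y) * (Real.cos (u * x) * Real.cosh (u * y)) -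
      Real.sin (x * y) * (Real.sin (u * x) * Real.sinh (u * y))) - Real.cos (u * x)| ≤
      5 * y ^ 2 * B ^ 2 * (1 + x ^ 2) := by
  have hy0 : 0 ≤ |y| := abs_nonneg y
  have hy1 : |y| ≤ 1 := by nlinarith
  have hysq : y ^ 2 ≤ 1 := by
    rw [← sq_abs]
    nlinarith
  have huy : |u * y| ≤ 1 := by
    rw [abs_mul, abs_of_nonneg hu0]
    nlinarith
  have hE1 : Real.exp (y ^ 2 / 2) ≤ 1 + y ^ 2 := by
    have := exp_le (s := y ^ 2 / 2) (by positivity) (by linarith)
    linarith
  have hE0 : 1 ≤ Real.exp (y ^ 2 / 2) := Real.one_le_exp (by positivity)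
  set E := Real.exp (y ^ 2 / 2) with hE
  have hc1 := cosh_le huy
  have hc0 : 1 ≤ Real.cosh (u * y) := Real.one_le_cosh _
  have hs1 := sinh_le huy
  have huysq : (u * y) ^ 2 ≤ 1 := by
    rw [← sq_abs]
    nlinarith [abs_nonneg (u * y)]
  have hcos := Real.one_sub_sq_div_two_le_cos (x := x * y)
  have hcos1 := Real.cos_le_one (x * y)
  have hsin : |Real.sin (x * y)| ≤ |x * y| := Real.abs_sin_le_abs
  have hca : |Real.cos (x * y)| ≤ 1 := Real.abs_cos_le_one _
  have hcb : |Real.cos (u * x)| ≤ 1 := Real.abs_cos_le_one _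
  have hsb : |Real.sin (u * x)| ≤ 1 := Real.abs_sin_le_one _
  have e1 : E * (Real.cos (x * y) * (Real.cos (u * x) * Real.cosh (u * y)) -
      Real.sin (x * y) * (Real.sin (u * x) * Real.sinh (u * y))) - Real.cos (u * x) =
      (E - 1) * (Real.cos (x * y) * Real.cos (u * x) * Real.cosh (u * y)) +
      Real.cos (u * x) * (Real.cos (x * y) * (Real.cosh (u * y) - 1) - (1 - Real.cos (x * y))) -
      E * (Real.sin (x * y) * (Real.sin (u * x) * Real.sinh (u * y))) := by ring
  rw [e1]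
  have b1 : |(E - 1) * (Real.cos (x * y) * Real.cos (u * x) * Real.cosh (u * y))| ≤
      y ^ 2 * 2 := by
    rw [abs_mul, abs_of_nonneg (by linarith : 0 ≤ E - 1)]
    apply mul_le_mul (by linarith) _ (abs_nonneg _) (by positivity)
    rw [abs_mul, abs_mul, abs_of_pos (by linarith : 0 < Real.cosh (u * y))]
    calc |Real.cos (x * y)| * |Real.cos (u * x)| * Real.cosh (u * y) ≤ 1 * 1 * 2 := by
          apply mul_le_mul _ (by linarith) (by linarith) (by norm_num)
          exact mul_le_mul hca hcb (abs_nonneg _) (by norm_num)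
      _ = 2 := by norm_num
  have b2 : |Real.cos (u * x) * (Real.cos (x * y) * (Real.cosh (u * y) - 1) -
      (1 - Real.cos (x * y)))| ≤ (u * y) ^ 2 + (x * y) ^ 2 / 2 := by
    rw [abs_mul]
    calc |Real.cos (u * x)| * |Real.cos (x * y) * (Real.cosh (u * y) - 1) -
          (1 - Real.cos (x * y))| ≤ 1 * |Real.cos (x * y) * (Real.cosh (u * y) - 1) -
          (1 - Real.cos (x * y))| := mul_le_mul_of_nonneg_right hcb (abs_nonneg _)
      _ ≤ |Real.cos (x * y) * (Real.cosh (u * y) - 1)| + |1 - Real.cos (x * y)| := by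
          rw [one_mul]
          exact abs_sub _ _
      _ ≤ 1 * (u * y) ^ 2 + (x * y) ^ 2 / 2 := by
          apply add_le_add
          · rw [abs_mul, abs_of_nonneg (by linarith : 0 ≤ Real.cosh (u * y) - 1)]
            exact mul_le_mul hca (by linarith) (by linarith) (by norm_num)
          · rw [abs_of_nonneg (by linarith)]
            linarith
      _ = (u * y) ^ 2 + (x * y) ^ 2 / 2 := by ring
  have b3 : |E * (Real.sin (x * y) * (Real.sin (u * x) * Real.sinh (u * y)))| ≤
      4 * (|x * y| * |u * y|) := by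
    rw [abs_mul, abs_mul, abs_mul, abs_of_pos (by linarith : 0 < E)]
    have c1 : |Real.sin (u * x)| * |Real.sinh (u * y)| ≤ 1 * (2 * |u * y|) :=
      mul_le_mul hsb hs1 (abs_nonneg _) (by norm_num)
    have c2 : |Real.sin (x * y)| * (|Real.sin (u * x)| * |Real.sinh (u * y)|) ≤
        |x * y| * (1 * (2 * |u * y|)) :=
      mul_le_mul hsin c1 (by positivity) (abs_nonneg _)
    calc E * (|Real.sin (x * y)| * (|Real.sin (u * x)| * |Real.sinh (u * y)|)) ≤
        2 * (|x * y| * (1 * (2 * |u * y|))) :=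
          mul_le_mul (by linarith) c2 (by positivity) (by norm_num)
      _ = 4 * (|x * y| * |u * y|) := by ring
  have b4 := abs_sub ((E - 1) * (Real.cos (x * y) * Real.cos (u * x) * Real.cosh (u * y)) +
      Real.cos (u * x) * (Real.cos (x * y) * (Real.cosh (u * y) - 1) - (1 - Real.cos (x * y))))
      (E * (Real.sin (x * y) * (Real.sin (u * x) * Real.sinh (u * y))))
  have b5 := abs_add_le ((E - 1) * (Real.cos (x * y) * Real.cos (u * x) * Real.cosh (u * y)))
      (Real.cos (u * x) * (Real.cos (x * y) * (Real.cosh (u * y) - 1) - (1 - Real.cos (x * y))))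
  have b6 : |x * y| * |u * y| = |x| * u * y ^ 2 := by
    rw [abs_mul, abs_mul, abs_of_nonneg hu0]
    have : |y| * |y| = y ^ 2 := by rw [← sq, sq_abs]
    calc |x| * |y| * (u * |y|) = |x| * u * (|y| * |y|) := by ring
      _ = _ := by rw [this]
  rw [b6] at b3
  have hx2 : |x| ^ 2 = x ^ 2 := sq_abs x
  have hxa : 0 ≤ |x| := abs_nonneg x
  have b7 : 2 + u ^ 2 + x ^ 2 / 2 + 4 * |x| * u ≤ 5 * B ^ 2 * (1 + x ^ 2) := by
    have d1 : u ^ 2 ≤ B ^ 2 := by nlinarith
    have d2 : |x| * u ≤ |x| * B := mul_le_mul_of_nonneg_left huB hxa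
    have d3 : 4 * (|x| * B) ≤ 2 * B ^ 2 * (1 + x ^ 2) := by
      have : 2 * |x| ≤ 1 + x ^ 2 := by nlinarith [sq_nonneg (|x| - 1)]
      have d4 : B ≤ B ^ 2 := by nlinarith
      have d5 : 0 ≤ 1 + x ^ 2 := by positivity
      calc 4 * (|x| * B) = 2 * B * (2 * |x|) := by ring
        _ ≤ 2 * B * (1 + x ^ 2) := mul_le_mul_of_nonneg_left this (by linarith)
        _ ≤ 2 * B ^ 2 * (1 + x ^ 2) := mul_le_mul_of_nonneg_right (by linarith) d5
    have d6 : 1 ≤ B ^ 2 := by nlinarith
    have d7 : 0 ≤ x ^ 2 := sq_nonneg x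
    nlinarith
  have b8 : y ^ 2 * (2 + u ^ 2 + x ^ 2 / 2 + 4 * |x| * u) ≤ y ^ 2 * (5 * B ^ 2 * (1 + x ^ 2)) :=
    mul_le_mul_of_nonneg_left b7 (sq_nonneg y)
  calc _ ≤ y ^ 2 * 2 + ((u * y) ^ 2 + (x * y) ^ 2 / 2) + 4 * (|x| * u * y ^ 2) := by linarith
    _ = y ^ 2 * (2 + u ^ 2 + x ^ 2 / 2 + 4 * |x| * u) := by ring
    _ ≤ y ^ 2 * (5 * B ^ 2 * (1 + x ^ 2)) := b8
    _ = 5 * y ^ 2 * B ^ 2 * (1 + x ^ 2) := by ring

/-! ### the weight -/

theorem wint {B : ℝ} (hB : 0 < B) (M : ℝ) : ∫ u in (0 : ℝ)..B, (1 - u / B) * M = B / 2 * M := by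
  rw [intervalIntegral.integral_mul_const]
  congr 1
  rw [intervalIntegral.integral_sub (by simp) (by
    apply Continuous.intervalIntegrable
    fun_prop), intervalIntegral.integral_div, integral_id]
  simp
  field_simp
  ring

theorem wnonneg {B u : ℝ} (hB : 0 < B) (huB : u ≤ B) : 0 ≤ 1 - u / B := by
  have : u / B ≤ 1 := (div_le_one hB).mpr huB
  linarith

theorem wnorm {B M : ℝ} (hB : 0 < B) (f : ℝ → ℂ) (hf : ∀ u, 0 ≤ u → u ≤ B → ‖f u‖ ≤ M) :
    ‖∫ u in (0 : ℝ)..B, ((1 - u / B : ℝ) : ℂ) * f u‖ ≤ B / 2 * M := by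
  rw [← wint hB M]
  apply intervalIntegral.norm_integral_le_of_norm_le hB.le
  · refine Filter.Eventually.of_forall fun u hu => ?_
    rw [norm_mul, Complex.norm_real, Real.norm_of_nonneg (wnonneg hB hu.2)]
    exact mul_le_mul_of_nonneg_left (hf u hu.1.le hu.2) (wnonneg hB hu.2)
  · apply Continuous.intervalIntegrable
    fun_prop

/-! ### the kernel at real points -/

theorem KB_real (B x : ℝ) : KB B (x : ℂ) = (KR B x : ℂ) := by
  unfold KB KR
  rw [Complex.ofReal_mul, ← intervalIntegral.integral_ofReal]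
  congr 1
  · push_cast
    ring_nf
  · congr 1
    ext u
    push_cast
    ring_nf

theorem fejer {B : ℝ} (hB : 0 < B) (x : ℝ) (hx : x ≠ 0) :
    ∫ u in (0 : ℝ)..B, (1 - u / B) * (2 * Real.cos (u * x)) =
      2 * (1 - Real.cos (B * x)) / (B * x ^ 2) := by
  have hder : ∀ u ∈ Set.uIcc 0 B, HasDerivAt (fun u : ℝ => 2 * ((1 - u / B) *
      (Real.sin (u * x) / x) - Real.cos (u * x) / (B * x ^ 2)))
      ((1 - u / B) * (2 * Real.cos (u * x))) u := by
    intro u _
    have h0 : HasDerivAt (fun u : ℝ => u * x) x u := by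
      simpa using (hasDerivAt_id u).mul_const x
    have h1 : HasDerivAt (fun u : ℝ => Real.sin (u * x)) (Real.cos (u * x) * x) u := h0.sin
    have h2 : HasDerivAt (fun u : ℝ => Real.cos (u * x)) (-Real.sin (u * x) * x) u := h0.cos
    have h3 : HasDerivAt (fun u : ℝ => 1 - u / B) (-(1 / B)) u := by
      have := (hasDerivAt_id u).div_const B
      simpa using this.const_sub 1
    have h4 := ((h3.mul (h1.div_const x)).sub (h2.div_const (B * x ^ 2))).const_mul 2
    refine HasDerivAt.congr_deriv h4 ?_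
    field_simp
    ring
  rw [intervalIntegral.integral_eq_sub_of_hasDerivAt hder (by
    apply Continuous.intervalIntegrable
    fun_prop)]
  simp
  field_simp
  ring

theorem KR_nonneg {B : ℝ} (hB : 0 < B) (x : ℝ) : 0 ≤ KR B x := by
  unfold KR
  apply mul_nonneg (Real.exp_pos _).le
  by_cases hx : x = 0
  · subst hx
    apply intervalIntegral.integral_nonneg hB.le
    intro u hu
    simpa using wnonneg hB hu.2
  · rw [fejer hB x hx]
    have := Real.cos_le_one (B * x)
    apply div_nonneg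
    · linarith
    · positivity

theorem KR_le {B : ℝ} (hB : 0 < B) (x : ℝ) : KR B x ≤ B * Real.exp (-x ^ 2 / 2) := by
  unfold KR
  rw [mul_comm B]
  apply mul_le_mul_of_nonneg_left _ (Real.exp_pos _).le
  have h1 : ∫ u in (0 : ℝ)..B, (1 - u / B) * (2 * Real.cos (u * x)) ≤
      ∫ u in (0 : ℝ)..B, (1 - u / B) * 2 := by
    apply intervalIntegral.integral_mono_on hB.le
    · apply Continuous.intervalIntegrable
      fun_prop
    · apply Continuous.intervalIntegrable
      fun_prop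
    · intro u hu
      apply mul_le_mul_of_nonneg_left _ (wnonneg hB hu.2)
      have := Real.cos_le_one (u * x)
      linarith
  rw [wint hB] at h1
  linarith

theorem KR_cont (B : ℝ) : Continuous (KR B) := by
  unfold KR
  apply Continuous.mul
  · fun_prop
  · apply intervalIntegral.continuous_parametric_intervalIntegral_of_continuous'
    simp only [Function.uncurry_def]
    fun_prop

theorem KB_cont (B : ℝ) : Continuous (KB B) := by
  unfold KB
  apply Continuous.mul
  · fun_prop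
  · apply intervalIntegral.continuous_parametric_intervalIntegral_of_continuous'
    simp only [Function.uncurry_def]
    fun_prop

theorem gint : Integrable fun x : ℝ => Real.exp (-x ^ 2 / 2) := by
  have := integrable_exp_neg_mul_sq (b := 1 / 2) (by norm_num)
  refine this.congr (Filter.Eventually.of_forall fun x => ?_)
  show Real.exp (-(1 / 2) * x ^ 2) = Real.exp (-x ^ 2 / 2)
  congr 1
  ring

theorem KR_int {B : ℝ} (hB : 0 < B) : Integrable (KR B) := by
  refine (gint.const_mul B).mono' (KR_cont B).aestronglyMeasurable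
    (Filter.Eventually.of_forall fun x => ?_)
  rw [Real.norm_of_nonneg (KR_nonneg hB x)]
  exact KR_le hB x

/-! ### complex arguments -/

theorem norm_cos_le (v : ℂ) : ‖Complex.cos v‖ ≤ Real.exp |v.im| := by
  unfold Complex.cos
  rw [norm_div]
  have h0 : ∀ w : ℂ, ‖Complex.exp w‖ ≤ Real.exp |w.re| := fun w => by
    rw [Complex.norm_exp]
    exact Real.exp_le_exp.2 (le_abs_self _)
  have h1 : ‖Complex.exp (v * Complex.I)‖ ≤ Real.exp |v.im| := by
    refine (h0 _).trans_eq ?_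
    simp
  have h2 : ‖Complex.exp (-v * Complex.I)‖ ≤ Real.exp |v.im| := by
    refine (h0 _).trans_eq ?_
    simp
  have h3 := norm_add_le (Complex.exp (v * Complex.I)) (Complex.exp (-v * Complex.I))
  have h4 : ‖(2 : ℂ)‖ = 2 := by simp
  rw [h4, div_le_iff₀ (by norm_num)]
  linarith

theorem re_aux (a b : ℝ) : ((a : ℂ) + (b : ℂ) * Complex.I).re = a := by simp

theorem im_aux (a b : ℝ) : ((a : ℂ) + (b : ℂ) * Complex.I).im = b := by simp

theorem sq_re (z : ℂ) : (-z ^ 2 / 2).re = -z.re ^ 2 / 2 + z.im ^ 2 / 2 := by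
  have : -z ^ 2 / 2 = ((-1 / 2 : ℝ) : ℂ) * (z * z) := by push_cast; ring
  rw [this, Complex.re_ofReal_mul, Complex.mul_re]
  ring

theorem sq_im (z : ℂ) : (-z ^ 2 / 2).im = -(z.re * z.im) := by
  have : -z ^ 2 / 2 = ((-1 / 2 : ℝ) : ℂ) * (z * z) := by push_cast; ring
  rw [this, Complex.im_ofReal_mul, Complex.mul_im]
  ring

theorem KB_norm {B : ℝ} (hB : 1 ≤ B) (z : ℂ) (hz : |z.im| ≤ 1 / 2) :
    ‖KB B z‖ ≤ 2 * B * Real.exp (B / 2) * Real.exp (-z.re ^ 2 / 2) := by
  have hB0 : 0 < B := by linarith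
  unfold KB
  rw [norm_mul, Complex.norm_exp, sq_re, Real.exp_add]
  have h1 : ‖∫ u in (0 : ℝ)..B, ((1 - u / B : ℝ) : ℂ) * (2 * Complex.cos (u * z))‖ ≤
      B / 2 * (2 * Real.exp (B / 2)) := by
    apply wnorm hB0
    intro u hu0 huB
    rw [norm_mul]
    have h2 : ‖(2 : ℂ)‖ = 2 := by simp
    rw [h2]
    apply mul_le_mul_of_nonneg_left _ (by norm_num)
    refine (norm_cos_le _).trans (Real.exp_le_exp.mpr ?_)
    rw [Complex.im_ofReal_mul, abs_mul, abs_of_nonneg hu0]
    calc u * |z.im| ≤ B * (1 / 2) := mul_le_mul huB hz (abs_nonneg _) hB0.le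
      _ = B / 2 := by ring
  have h3 : Real.exp (z.im ^ 2 / 2) ≤ 2 := by
    have h4 : z.im ^ 2 ≤ 1 / 4 := by
      rw [← sq_abs]
      nlinarith [abs_nonneg z.im]
    have := exp_le (s := z.im ^ 2 / 2) (by positivity) (by linarith)
    linarith
  have h5 := Real.exp_pos (-z.re ^ 2 / 2)
  have h6 := Real.exp_pos (B / 2)
  calc Real.exp (-z.re ^ 2 / 2) * Real.exp (z.im ^ 2 / 2) *
        ‖∫ u in (0 : ℝ)..B, ((1 - u / B : ℝ) : ℂ) * (2 * Complex.cos (u * z))‖ ≤
        Real.exp (-z.re ^ 2 / 2) * 2 * (B / 2 * (2 * Real.exp (B / 2))) := by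
        apply mul_le_mul _ h1 (norm_nonneg _) (by positivity)
        exact mul_le_mul_of_nonneg_left h3 h5.le
    _ = 2 * B * Real.exp (B / 2) * Real.exp (-z.re ^ 2 / 2) := by ring

theorem re_prod (z : ℂ) (u : ℝ) : (Complex.exp (-z ^ 2 / 2) * Complex.cos (u * z)).re =
    Real.exp (-z.re ^ 2 / 2) * (Real.exp (z.im ^ 2 / 2) *
      (Real.cos (z.re * z.im) * (Real.cos (u * z.re) * Real.cosh (u * z.im)) -
      Real.sin (z.re * z.im) * (Real.sin (u * z.re) * Real.sinh (u * z.im)))) := by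
  have hc : Complex.cos (u * z) = ((Real.cos (u * z.re) * Real.cosh (u * z.im) : ℝ) : ℂ) +
      ((-(Real.sin (u * z.re) * Real.sinh (u * z.im)) : ℝ) : ℂ) * Complex.I := by
    rw [Complex.cos_eq, Complex.re_ofReal_mul, Complex.im_ofReal_mul]
    push_cast
    ring
  have hcre : (Complex.cos (u * z)).re = Real.cos (u * z.re) * Real.cosh (u * z.im) := by
    rw [hc, re_aux]
  have hcim : (Complex.cos (u * z)).im = -(Real.sin (u * z.re) * Real.sinh (u * z.im)) := by
    rw [hc, im_aux]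
  rw [Complex.mul_re, Complex.exp_re, Complex.exp_im, hcre, hcim, sq_re, sq_im, Real.cos_neg,
    Real.sin_neg, Real.exp_add]
  ring

theorem poly_exp (x : ℝ) : (1 + x ^ 2) * Real.exp (-x ^ 2 / 2) ≤ 4 * Real.exp (-x ^ 2 / 4) := by
  have h1 : Real.exp (-x ^ 2 / 2) = Real.exp (-x ^ 2 / 4) * Real.exp (-x ^ 2 / 4) := by
    rw [← Real.exp_add]
    congr 1
    ring
  have h2 : 1 + x ^ 2 / 4 ≤ Real.exp (x ^ 2 / 4) := by
    have := Real.add_one_le_exp (x ^ 2 / 4)
    linarith
  have h3 : Real.exp (x ^ 2 / 4) * Real.exp (-x ^ 2 / 4) = 1 := by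
    rw [← Real.exp_add]
    have : x ^ 2 / 4 + -x ^ 2 / 4 = 0 := by ring
    rw [this, Real.exp_zero]
  have h4 := Real.exp_pos (-x ^ 2 / 4)
  have h5 : (1 + x ^ 2) * Real.exp (-x ^ 2 / 4) ≤ 4 := by
    calc (1 + x ^ 2) * Real.exp (-x ^ 2 / 4) ≤ (4 * (1 + x ^ 2 / 4)) * Real.exp (-x ^ 2 / 4) := by
          apply mul_le_mul_of_nonneg_right _ h4.le
          nlinarith [sq_nonneg x]
      _ ≤ (4 * Real.exp (x ^ 2 / 4)) * Real.exp (-x ^ 2 / 4) := by
          apply mul_le_mul_of_nonneg_right _ h4.le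
          linarith
      _ = 4 * (Real.exp (x ^ 2 / 4) * Real.exp (-x ^ 2 / 4)) := by ring
      _ = 4 := by rw [h3, mul_one]
  rw [h1]
  calc (1 + x ^ 2) * (Real.exp (-x ^ 2 / 4) * Real.exp (-x ^ 2 / 4)) =
      ((1 + x ^ 2) * Real.exp (-x ^ 2 / 4)) * Real.exp (-x ^ 2 / 4) := by ring
    _ ≤ 4 * Real.exp (-x ^ 2 / 4) := mul_le_mul_of_nonneg_right h5 h4.le

theorem KB_re {B : ℝ} (hB : 1 ≤ B) (z : ℂ) (hz : |z.im| * B ≤ 1) :
    |(KB B z).re - KR B z.re| ≤ 20 * z.im ^ 2 * B ^ 3 * Real.exp (-z.re ^ 2 / 4) := by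
  have hB0 : 0 < B := by linarith
  have h1 : (KB B z).re = ∫ u in (0 : ℝ)..B, (1 - u / B) *
      (2 * (Complex.exp (-z ^ 2 / 2) * Complex.cos (u * z)).re) := by
    have h2 : KB B z = ∫ u in (0 : ℝ)..B, Complex.exp (-z ^ 2 / 2) *
        (((1 - u / B : ℝ) : ℂ) * (2 * Complex.cos (u * z))) := by
      unfold KB
      rw [intervalIntegral.integral_const_mul]
    rw [h2]
    have h3 := Complex.reCLM.intervalIntegral_comp_comm (μ := volume) (a := 0) (b := B)
      (f := fun u : ℝ => Complex.exp (-z ^ 2 / 2) *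
        (((1 - u / B : ℝ) : ℂ) * (2 * Complex.cos (u * z)))) (by
        apply Continuous.intervalIntegrable
        fun_prop)
    rw [Complex.reCLM_apply] at h3
    rw [← h3]
    apply intervalIntegral.integral_congr
    intro u _
    show (Complex.exp (-z ^ 2 / 2) * (((1 - u / B : ℝ) : ℂ) * (2 * Complex.cos (u * z)))).re = _
    have : Complex.exp (-z ^ 2 / 2) * (((1 - u / B : ℝ) : ℂ) * (2 * Complex.cos (u * z))) =
        (((1 - u / B) * 2 : ℝ) : ℂ) * (Complex.exp (-z ^ 2 / 2) * Complex.cos (u * z)) := by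
      push_cast
      ring
    rw [this, Complex.re_ofReal_mul]
    ring
  have h2 : KR B z.re = ∫ u in (0 : ℝ)..B, (1 - u / B) *
      (2 * (Real.exp (-z.re ^ 2 / 2) * Real.cos (u * z.re))) := by
    unfold KR
    rw [← intervalIntegral.integral_const_mul]
    apply intervalIntegral.integral_congr
    intro u _
    show Real.exp (-z.re ^ 2 / 2) * ((1 - u / B) * (2 * Real.cos (u * z.re))) = _
    ring
  rw [h1, h2, ← intervalIntegral.integral_sub (by
      apply Continuous.intervalIntegrable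
      simp only [re_prod]
      fun_prop) (by
      apply Continuous.intervalIntegrable
      fun_prop)]
  set M : ℝ := 2 * (Real.exp (-z.re ^ 2 / 2) * (5 * z.im ^ 2 * B ^ 2 * (1 + z.re ^ 2))) with hM
  have h3 : ‖∫ u in (0 : ℝ)..B, ((1 - u / B) *
      (2 * (Complex.exp (-z ^ 2 / 2) * Complex.cos (u * z)).re) - (1 - u / B) *
      (2 * (Real.exp (-z.re ^ 2 / 2) * Real.cos (u * z.re))))‖ ≤ B / 2 * M := by
    rw [← wint hB0 M]
    apply intervalIntegral.norm_integral_le_of_norm_le hB0.le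
    · refine Filter.Eventually.of_forall fun u hu => ?_
      rw [re_prod]
      have e1 : (1 - u / B) * (2 * (Real.exp (-z.re ^ 2 / 2) * (Real.exp (z.im ^ 2 / 2) *
          (Real.cos (z.re * z.im) * (Real.cos (u * z.re) * Real.cosh (u * z.im)) -
          Real.sin (z.re * z.im) * (Real.sin (u * z.re) * Real.sinh (u * z.im)))))) -
          (1 - u / B) * (2 * (Real.exp (-z.re ^ 2 / 2) * Real.cos (u * z.re))) =
          (1 - u / B) * (2 * (Real.exp (-z.re ^ 2 / 2) * (Real.exp (z.im ^ 2 / 2) *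
          (Real.cos (z.re * z.im) * (Real.cos (u * z.re) * Real.cosh (u * z.im)) -
          Real.sin (z.re * z.im) * (Real.sin (u * z.re) * Real.sinh (u * z.im))) -
          Real.cos (u * z.re)))) := by ring
      rw [e1, norm_mul, Real.norm_of_nonneg (wnonneg hB0 hu.2)]
      apply mul_le_mul_of_nonneg_left _ (wnonneg hB0 hu.2)
      rw [norm_mul, norm_mul, Real.norm_of_nonneg (by norm_num : (0 : ℝ) ≤ 2),
        Real.norm_of_nonneg (Real.exp_pos _).le, hM]
      apply mul_le_mul_of_nonneg_left _ (by norm_num)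
      apply mul_le_mul_of_nonneg_left _ (Real.exp_pos _).le
      exact elem hB hu.1.le hu.2 hz
    · apply Continuous.intervalIntegrable
      fun_prop
  rw [Real.norm_eq_abs] at h3
  refine h3.trans ?_
  have h4 := poly_exp z.re
  have h5 : 0 ≤ 5 * z.im ^ 2 * B ^ 3 := by positivity
  calc B / 2 * M = 5 * z.im ^ 2 * B ^ 3 * ((1 + z.re ^ 2) * Real.exp (-z.re ^ 2 / 2)) := by
        rw [hM]
        ring
    _ ≤ 5 * z.im ^ 2 * B ^ 3 * (4 * Real.exp (-z.re ^ 2 / 4)) := mul_le_mul_of_nonneg_left h4 h5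
    _ = 20 * z.im ^ 2 * B ^ 3 * Real.exp (-z.re ^ 2 / 4) := by ring

/-! ### the integral of the kernel -/

theorem gauss_cos (u : ℝ) : ∫ x : ℝ, Real.exp (-x ^ 2 / 2) * Real.cos (u * x) =
    Real.sqrt (2 * Real.pi) * Real.exp (-u ^ 2 / 2) := by
  have h1 := fourierIntegral_gaussian (b := 1 / 2) (by norm_num) (u : ℂ)
  have hf : ∀ x : ℝ, Complex.exp (Complex.I * u * x) * Complex.exp (-(1 / 2) * x ^ 2) =
      ((Real.exp (-x ^ 2 / 2) * Real.cos (u * x) : ℝ) : ℂ) +
      ((Real.exp (-x ^ 2 / 2) * Real.sin (u * x) : ℝ) : ℂ) * Complex.I := by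
    intro x
    have e1 : Complex.I * u * x = ((u * x : ℝ) : ℂ) * Complex.I := by push_cast; ring
    have e2 : (-(1 / 2) * x ^ 2 : ℂ) = ((-x ^ 2 / 2 : ℝ) : ℂ) := by push_cast; ring
    rw [e1, e2, Complex.exp_mul_I, ← Complex.ofReal_cos, ← Complex.ofReal_sin,
      ← Complex.ofReal_exp]
    push_cast
    ring
  have hint : Integrable fun x : ℝ => Complex.exp (Complex.I * u * x) *
      Complex.exp (-(1 / 2) * x ^ 2) := by
    refine gint.mono' (by
      apply Continuous.aestronglyMeasurable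
      fun_prop) (Filter.Eventually.of_forall fun x => ?_)
    rw [norm_mul, Complex.norm_exp, Complex.norm_exp]
    have e1 : (Complex.I * u * x).re = 0 := by simp
    have e2 : (-(1 / 2) * x ^ 2 : ℂ) = ((-x ^ 2 / 2 : ℝ) : ℂ) := by push_cast; ring
    rw [e1, e2, Complex.ofReal_re, Real.exp_zero, one_mul]
  have h2 : (∫ x : ℝ, Complex.exp (Complex.I * u * x) * Complex.exp (-(1 / 2) * x ^ 2)).re =
      ∫ x : ℝ, Real.exp (-x ^ 2 / 2) * Real.cos (u * x) := by
    have := Complex.reCLM.integral_comp_comm hint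
    rw [Complex.reCLM_apply] at this
    rw [← this]
    congr 1
    ext x
    rw [Complex.reCLM_apply, hf x, re_aux]
  rw [← h2, h1]
  have e3 : ((Real.pi : ℂ) / (1 / 2)) = ((2 * Real.pi : ℝ) : ℂ) := by push_cast; ring
  have e4 : (-(u : ℂ) ^ 2 / (4 * (1 / 2))) = ((-u ^ 2 / 2 : ℝ) : ℂ) := by push_cast; ring
  have e5 : (1 / 2 : ℂ) = ((1 / 2 : ℝ) : ℂ) := by push_cast; ring
  rw [e3, e4, e5, ← Complex.ofReal_cpow (by positivity), ← Complex.ofReal_exp,
    ← Complex.ofReal_mul, Complex.ofReal_re, Real.sqrt_eq_rpow]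

theorem KR_integral {B : ℝ} (hB : 0 < B) :
    (∫ x : ℝ, KR B x) = 2 * Real.sqrt (2 * Real.pi) * GB B 1 := by
  have h1 : ∀ x, KR B x = ∫ u in (0 : ℝ)..B, Real.exp (-x ^ 2 / 2) *
      ((1 - u / B) * (2 * Real.cos (u * x))) := fun x => by
    unfold KR
    rw [intervalIntegral.integral_const_mul]
  simp only [h1]
  have hswap : ∫ x : ℝ, (∫ u in (0 : ℝ)..B, Real.exp (-x ^ 2 / 2) *
      ((1 - u / B) * (2 * Real.cos (u * x)))) =
      ∫ u in (0 : ℝ)..B, (∫ x : ℝ, Real.exp (-x ^ 2 / 2) *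
      ((1 - u / B) * (2 * Real.cos (u * x)))) := by
    simp only [intervalIntegral.integral_of_le hB.le]
    rw [MeasureTheory.integral_integral_swap]
    have hdom : Integrable (fun p : ℝ × ℝ => (2 * Real.exp (-p.1 ^ 2 / 2)))
        (volume.prod (volume.restrict (Ioc 0 B))) := by
      have := (gint.const_mul 2).mul_prod (ν := volume.restrict (Ioc 0 B))
        (g := fun _ => (1 : ℝ)) (integrable_const 1)
      simpa using this
    refine hdom.mono' (by
      apply Continuous.aestronglyMeasurable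
      simp only [Function.uncurry_def]
      fun_prop) ?_
    have hae : ∀ᵐ p : ℝ × ℝ ∂(volume.prod (volume.restrict (Ioc 0 B))), p.2 ∈ Ioc 0 B := by
      have h2 : ∀ᵐ u ∂(volume.restrict (Ioc 0 B)), u ∈ Ioc 0 B := ae_restrict_mem measurableSet_Ioc
      exact Measure.quasiMeasurePreserving_snd.ae h2
    filter_upwards [hae] with p hp
    simp only [Function.uncurry_def]
    rw [norm_mul, norm_mul, norm_mul, Real.norm_of_nonneg (Real.exp_pos _).le,
      Real.norm_of_nonneg (wnonneg hB hp.2), Real.norm_of_nonneg (by norm_num : (0 : ℝ) ≤ 2),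
      Real.norm_eq_abs]
    have h3 : 1 - p.2 / B ≤ 1 := by
      have : 0 ≤ p.2 / B := div_nonneg hp.1.le hB.le
      linarith
    have h4 := Real.abs_cos_le_one (p.2 * p.1)
    have h5 := wnonneg hB hp.2
    calc Real.exp (-p.1 ^ 2 / 2) * ((1 - p.2 / B) * (2 * |Real.cos (p.2 * p.1)|)) ≤
        Real.exp (-p.1 ^ 2 / 2) * (1 * (2 * 1)) := by
          apply mul_le_mul_of_nonneg_left _ (Real.exp_pos _).le
          apply mul_le_mul h3 (by linarith) (by positivity) (by norm_num)
      _ = 2 * Real.exp (-p.1 ^ 2 / 2) := by ring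
  rw [hswap]
  have h2 : ∀ u : ℝ, (∫ x : ℝ, Real.exp (-x ^ 2 / 2) * ((1 - u / B) * (2 * Real.cos (u * x)))) =
      2 * Real.sqrt (2 * Real.pi) * ((1 - u / B) * Real.exp (-u ^ 2 / 2)) := by
    intro u
    have e1 : ∀ x : ℝ, Real.exp (-x ^ 2 / 2) * ((1 - u / B) * (2 * Real.cos (u * x))) =
        ((1 - u / B) * 2) * (Real.exp (-x ^ 2 / 2) * Real.cos (u * x)) := fun x => by ring
    simp only [e1]
    rw [integral_const_mul, gauss_cos]
    ring
  simp only [h2]
  rw [intervalIntegral.integral_const_mul]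
  unfold GB
  simp

/-! ### the transform -/

theorem GB_nonneg {B : ℝ} (hB : 0 < B) (n : ℕ) : 0 ≤ GB B n := by
  unfold GB
  apply intervalIntegral.integral_nonneg hB.le
  intro u hu
  exact mul_nonneg (wnonneg hB hu.2) (Real.exp_pos _).le

theorem GB_le {B : ℝ} (hB : 0 < B) (n : ℕ) : GB B n ≤ Real.sqrt (2 * Real.pi) := by
  have hint : Integrable fun u : ℝ => Real.exp (-(u - Real.log n) ^ 2 / 2) :=
    gint.comp_sub_right (Real.log n)
  have h1 : GB B n ≤ ∫ u in (0 : ℝ)..B, Real.exp (-(u - Real.log n) ^ 2 / 2) := by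
    unfold GB
    apply intervalIntegral.integral_mono_on hB.le
    · apply Continuous.intervalIntegrable
      fun_prop
    · apply Continuous.intervalIntegrable
      fun_prop
    · intro u hu
      have h2 : 1 - u / B ≤ 1 := by
        have : 0 ≤ u / B := div_nonneg hu.1 hB.le
        linarith
      have h3 := mul_le_mul_of_nonneg_right h2 (Real.exp_pos (-(u - Real.log n) ^ 2 / 2)).le
      rwa [one_mul] at h3
  have h2 : ∫ u in (0 : ℝ)..B, Real.exp (-(u - Real.log n) ^ 2 / 2) ≤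
      ∫ u : ℝ, Real.exp (-(u - Real.log n) ^ 2 / 2) := by
    rw [intervalIntegral.integral_of_le hB.le]
    exact setIntegral_le_integral hint (Filter.Eventually.of_forall fun u => (Real.exp_pos _).le)
  have h3 : ∫ u : ℝ, Real.exp (-(u - Real.log n) ^ 2 / 2) = Real.sqrt (2 * Real.pi) := by
    rw [integral_sub_right_eq_self (fun u : ℝ => Real.exp (-u ^ 2 / 2)) (Real.log n)]
    have h4 := integral_gaussian (1 / 2)
    have h5 : ∀ x : ℝ, Real.exp (-x ^ 2 / 2) = Real.exp (-(1 / 2) * x ^ 2) := fun x => by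
      congr 1
      ring
    simp only [h5]
    rw [h4]
    congr 1
    ring
  linarith

theorem GB_lower {B : ℝ} (hB : 0 < B) (n : ℕ) {α β m : ℝ} (hα : 0 ≤ α) (hαβ : α ≤ β)
    (hβ : β ≤ B) (h : ∀ u, α ≤ u → u ≤ β → m ≤ (1 - u / B) * Real.exp (-(u - Real.log n) ^ 2 / 2)) :
    (β - α) * m ≤ GB B n := by
  have hc : Continuous fun u : ℝ => (1 - u / B) * Real.exp (-(u - Real.log n) ^ 2 / 2) := by
    fun_prop
  have h1 : ∫ u in α..β, (1 - u / B) * Real.exp (-(u - Real.log n) ^ 2 / 2) ≤ GB B n := by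
    unfold GB
    apply intervalIntegral.integral_mono_interval hα hαβ hβ _ (hc.intervalIntegrable _ _)
    filter_upwards [ae_restrict_mem measurableSet_Ioc] with u hu
    exact mul_nonneg (wnonneg hB hu.2) (Real.exp_pos _).le
  have h2 : ∫ _u in α..β, m ≤ ∫ u in α..β, (1 - u / B) * Real.exp (-(u - Real.log n) ^ 2 / 2) := by
    apply intervalIntegral.integral_mono_on hαβ (by simp) (hc.intervalIntegrable _ _)
    intro u hu
    exact h u hu.1 hu.2
  rw [intervalIntegral.integral_const, smul_eq_mul] at h2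
  linarith

theorem t_KER : S_KER := by
  refine ⟨20, by norm_num, fun B hB => ?_⟩
  have hB0 : 0 < B := by linarith
  refine ⟨KB_real B, fun x => ⟨KR_nonneg hB0 x, KR_le hB0 x⟩, KR_cont B, KB_cont B, KR_int hB0,
    KB_norm hB, KB_re hB, KR_integral hB0, fun n => ⟨GB_nonneg hB0 n, GB_le hB0 n⟩, ?_, ?_⟩
  · have h1 := GB_lower hB0 1 (α := 0) (β := 1 / 2) (m := 1 / 4) le_rfl (by norm_num)
      (by linarith) (by
        intro u hu0 hu1
        have h2 : 1 / 2 ≤ 1 - u / B := by
          have : u / B ≤ 1 / 2 := by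
            rw [div_le_iff₀ hB0]
            linarith
          linarith
        have h3 : 1 / 2 ≤ Real.exp (-(u - Real.log (1 : ℕ)) ^ 2 / 2) := by
          have h4 := Real.add_one_le_exp (-(u - Real.log (1 : ℕ)) ^ 2 / 2)
          simp only [Nat.cast_one, Real.log_one, sub_zero] at h4 ⊢
          nlinarith
        calc (1 / 4 : ℝ) = 1 / 2 * (1 / 2) := by norm_num
          _ ≤ _ := mul_le_mul h2 h3 (by norm_num) (by linarith))
    linarith
  · intro n hn1 hn2
    have h1 := GB_lower hB0 n (α := Real.log n - 1) (β := Real.log n) (m := 1 / 4)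
      (by linarith) (by linarith) (by linarith) (by
        intro u hu0 hu1
        have h2 : 1 / 2 ≤ 1 - u / B := by
          have : u / B ≤ 1 / 2 := by
            rw [div_le_iff₀ hB0]
            linarith
          linarith
        have h3 : 1 / 2 ≤ Real.exp (-(u - Real.log n) ^ 2 / 2) := by
          have h4 := Real.add_one_le_exp (-(u - Real.log n) ^ 2 / 2)
          nlinarith
        calc (1 / 4 : ℝ) = 1 / 2 * (1 / 2) := by norm_num
          _ ≤ _ := mul_le_mul h2 h3 (by norm_num) (by linarith))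
    linarith

end Pool.Agent.Y555.OM.Ker
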