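import Pool.Agent.Y746.OM.Stm

/-! Project OM (helper746): S_PP (helper555). -/

set_option autoImplicit false

namespace Pool.Agent.Y555.OM.PP

open Finset Pool.Agent.Y746.OM

theorem t_PP : S_PP := by
  intro P r a
  induction P using Finset.induction_on with
  | empty => simp
  | insert p P hp ih =>
    set g : Finset ℕ → Finset ℕ → ℝ := fun S S' => (∏ p ∈ S, r p) * (∏ p ∈ S', r p) *
      ((∏ p ∈ S \ S', a p) * (∏ p ∈ S' \ S, a p)) with hg
    have h1 : ∀ S ∈ P.powerset, ∀ S' ∈ P.powerset, g S (insert p S') = r p * a p * g S S' := by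
      intro S hS S' hS'
      have hpS : p ∉ S := fun h => hp (Finset.mem_powerset.mp hS h)
      have hpS' : p ∉ S' := fun h => hp (Finset.mem_powerset.mp hS' h)
      have e1 : S \ insert p S' = S \ S' := Finset.sdiff_insert_of_notMem hpS S'
      have e2 : insert p S' \ S = insert p (S' \ S) := Finset.insert_sdiff_of_notMem S' hpS
      simp only [hg]
      rw [e1, e2, Finset.prod_insert hpS', Finset.prod_insert (fun h => hpS'
        (Finset.mem_sdiff.mp h).1)]
      ring
    have h2 : ∀ S ∈ P.powerset, ∀ S' ∈ P.powerset, g (insert p S) S' = r p * a p * g S S' := by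
      intro S hS S' hS'
      have hpS : p ∉ S := fun h => hp (Finset.mem_powerset.mp hS h)
      have hpS' : p ∉ S' := fun h => hp (Finset.mem_powerset.mp hS' h)
      have e1 : S' \ insert p S = S' \ S := Finset.sdiff_insert_of_notMem hpS' S
      have e2 : insert p S \ S' = insert p (S \ S') := Finset.insert_sdiff_of_notMem S hpS'
      simp only [hg]
      rw [e1, e2, Finset.prod_insert hpS, Finset.prod_insert (fun h => hpS
        (Finset.mem_sdiff.mp h).1)]
      ring
    have h3 : ∀ S ∈ P.powerset, ∀ S' ∈ P.powerset,
        g (insert p S) (insert p S') = r p ^ 2 * g S S' := by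
      intro S hS S' hS'
      have hpS : p ∉ S := fun h => hp (Finset.mem_powerset.mp hS h)
      have hpS' : p ∉ S' := fun h => hp (Finset.mem_powerset.mp hS' h)
      have e1 : insert p S \ insert p S' = S \ S' := by
        ext x
        simp only [Finset.mem_sdiff, Finset.mem_insert]
        constructor
        · rintro ⟨h | h, h'⟩
          · exact absurd (Or.inl h) h'
          · exact ⟨h, fun hx => h' (Or.inr hx)⟩
        · rintro ⟨h, h'⟩
          refine ⟨Or.inr h, ?_⟩
          rintro (rfl | hx)
          · exact hpS h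
          · exact h' hx
      have e2 : insert p S' \ insert p S = S' \ S := by
        ext x
        simp only [Finset.mem_sdiff, Finset.mem_insert]
        constructor
        · rintro ⟨h | h, h'⟩
          · exact absurd (Or.inl h) h'
          · exact ⟨h, fun hx => h' (Or.inr hx)⟩
        · rintro ⟨h, h'⟩
          refine ⟨Or.inr h, ?_⟩
          rintro (rfl | hx)
          · exact hpS' h
          · exact h' hx
      simp only [hg]
      rw [e1, e2, Finset.prod_insert hpS, Finset.prod_insert hpS']
      ring
    have ih' : ∑ S ∈ P.powerset, ∑ S' ∈ P.powerset, g S S' =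
        ∏ p ∈ P, (1 + r p ^ 2 + 2 * r p * a p) := ih
    show ∑ S ∈ (insert p P).powerset, ∑ S' ∈ (insert p P).powerset, g S S' = _
    rw [Finset.prod_insert hp, ← ih', Finset.sum_powerset_insert hp]
    have e3 : ∑ S ∈ P.powerset, ∑ S' ∈ (insert p P).powerset, g S S' =
        (1 + r p * a p) * ∑ S ∈ P.powerset, ∑ S' ∈ P.powerset, g S S' := by
      rw [Finset.mul_sum]
      apply Finset.sum_congr rfl
      intro S hS
      rw [Finset.sum_powerset_insert hp, Finset.sum_congr rfl (h1 S hS), ← Finset.mul_sum]
      ring
    have e4 : ∑ S ∈ P.powerset, ∑ S' ∈ (insert p P).powerset, g (insert p S) S' =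
        (r p * a p + r p ^ 2) * ∑ S ∈ P.powerset, ∑ S' ∈ P.powerset, g S S' := by
      rw [Finset.mul_sum]
      apply Finset.sum_congr rfl
      intro S hS
      rw [Finset.sum_powerset_insert hp, Finset.sum_congr rfl (h2 S hS),
        Finset.sum_congr rfl (h3 S hS), ← Finset.mul_sum, ← Finset.mul_sum]
      ring
    rw [e3, e4]
    ring

end Pool.Agent.Y555.OM.PP
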